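import Mathlib.NumberTheory.Pell
import Mathlib.NumberTheory.Multiplicity
import Mathlib.Tactic

/-!
# MP_bbf25a_nt: every vertical line contains infinitely many primitive resonant wavevectors

Let `z = a + b i`, `w = x + y i = z ρ` with `ρ = α + β i`. If `k = α² + β²` then `(∗)` is equivalent to
`x (1 - 2 α) = a k (k - 2 α)`, that is `b β (1 - 2 α) = a (α (1 - 2 α) - k (k - 2 α))`. With
`D = 1 - 2 α`, `N = (D² + 1 + 4 β²)² - 4 (1 + 4 β²)` this is `16 b β D = - a N`.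

* One primitive solution `(a, b₀)` belonging to integers `α₀`, `β₀` (`D₀ = 1 - 2 α₀`) gives
  infinitely many: take `D = D₀ u`, `β = β₀ v`, where `D₀² u² - t u v - 4 β₀² v² = 1`,
  `t = D₀² - 4 β₀² - 1` and `u ≡ v ≡ 1` modulo a suitable integer (Pell's equation).
* For `a = 2 h a'`, `a'` odd, `h` a power of two, a primitive solution is given by `D₀ = a' c`,
  `2 β₀ = h (D₀² - 1)` with `c = (h² + 1) (h² - 3)` (`c = 1` for `h = 1`, `|a'| > 1`), for `a` odd by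
  `D₀ = 55 a`, `2 β₀ = (D₀² - 1) / 2`, for `a = 2, -2` by `D₀ = 5, -5`, `β₀ = 4`.
-/

set_option autoImplicit false

namespace Pool.Agent.Results.MP_bbf25a_nt.EveryVerticalLine

/-- The polynomial `N(D, β)`. -/
def NN (D β : ℤ) : ℤ := (D ^ 2 + 1 + 4 * β ^ 2) ^ 2 - 4 * (1 + 4 * β ^ 2)

/-- `(a, b)` is in the primitive wavevector set `Λ'`. -/
def Prim (a b : ℤ) : Prop :=
  ∃ x y : ℤ, x * (a ^ 2 + b ^ 2) * (a ^ 2 + b ^ 2 - 2 * a * x - 2 * b * y) =
      a * (x ^ 2 + y ^ 2) * (x ^ 2 + y ^ 2 - 2 * a * x - 2 * b * y) ∧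
    a * x * (a - x) ≠ 0 ∧ Int.gcd (Int.gcd a b) (Int.gcd x y) = 1

/-- A solution of `16 b β D = - a N(D, β)` with `D` odd, `|β| ≥ 2` and `a`, `b` coprime gives an element
of `Λ'`. -/
theorem prim_of (a b D β : ℤ) (ha : a ≠ 0) (hD : Odd D) (hβ : 4 ≤ β ^ 2) (hab : IsCoprime a b)
    (h : 16 * b * β * D = -a * NN D β) : Prim a b := by
  obtain ⟨e, he⟩ := hD
  obtain ⟨α, hα⟩ : ∃ α : ℤ, D = 1 - 2 * α := ⟨-e, by omega⟩
  have hD0 : (1 - 2 * α) ≠ 0 := by omega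
  have hrel : b * β * (1 - 2 * α) = a * (α * (1 - 2 * α) -
      (α ^ 2 + β ^ 2) * (α ^ 2 + β ^ 2 - 2 * α)) := by
    have h1 : 16 * (b * β * (1 - 2 * α)) = 16 * (a * (α * (1 - 2 * α) -
      (α ^ 2 + β ^ 2) * (α ^ 2 + β ^ 2 - 2 * α))) := by
      rw [hα] at h
      have h2 : NN (1 - 2 * α) β = 16 * ((α ^ 2 + β ^ 2) * (α ^ 2 + β ^ 2 - 2 * α) -
        α * (1 - 2 * α)) := by unfold NN; ring
      rw [h2] at h
      linear_combination h
    exact mul_left_cancel₀ (by norm_num) h1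
  have hx : (a * α - b * β) * (1 - 2 * α) = a * ((α ^ 2 + β ^ 2) * (α ^ 2 + β ^ 2 - 2 * α)) := by
    linear_combination -hrel
  refine ⟨a * α - b * β, b * α + a * β, ?_, ?_, ?_⟩
  · linear_combination (a ^ 2 + b ^ 2) ^ 2 * hx
  · intro h0
    rcases mul_eq_zero.mp h0 with h1 | h1
    · rcases mul_eq_zero.mp h1 with h2 | h2
      · exact ha h2
      · rw [h2, zero_mul] at hx
        have h3 := hx.symm
        rcases mul_eq_zero.mp h3 with h4 | h4
        · exact ha h4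
        rcases mul_eq_zero.mp h4 with h5 | h5
        · nlinarith [sq_nonneg α]
        · nlinarith [sq_nonneg (α - 1)]
    · have h2 : a * α - b * β = a := by linarith
      rw [h2] at hx
      have h3 := mul_left_cancel₀ ha hx
      have h4 : (α ^ 2 + β ^ 2 - 1) * (α ^ 2 + β ^ 2 + 1 - 2 * α) = 0 := by linear_combination -h3
      rcases mul_eq_zero.mp h4 with h5 | h5
      · nlinarith [sq_nonneg α]
      · nlinarith [sq_nonneg (α - 1)]
  · have h1 : Int.gcd a b = 1 := Int.isCoprime_iff_gcd_eq_one.mp hab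
    rw [h1]
    simp

/-- A bound for `b` from below. -/
theorem bound_of (a b D β K : ℤ) (ha : a ≠ 0) (hD : Odd D) (hβ : 4 ≤ β ^ 2) (hK : 0 ≤ K)
    (hβK : 8 * (|a| + K) < β ^ 2) (h : 16 * b * β * D = -a * NN D β) : K < |b| := by
  by_contra hle
  push Not at hle
  obtain ⟨e, he⟩ := hD
  obtain ⟨α, hα⟩ : ∃ α : ℤ, D = 1 - 2 * α := ⟨-e, by omega⟩
  have hx : (a * α - b * β) * (1 - 2 * α) = a * ((α ^ 2 + β ^ 2) * (α ^ 2 + β ^ 2 - 2 * α)) := by
    have h1 : 16 * ((a * α - b * β) * (1 - 2 * α)) =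
        16 * (a * ((α ^ 2 + β ^ 2) * (α ^ 2 + β ^ 2 - 2 * α))) := by
      rw [hα] at h
      have h2 : NN (1 - 2 * α) β = 16 * ((α ^ 2 + β ^ 2) * (α ^ 2 + β ^ 2 - 2 * α) -
        α * (1 - 2 * α)) := by unfold NN; ring
      rw [h2] at h
      linear_combination -h
    exact mul_left_cancel₀ (by norm_num) h1
  have habs : |(a * α - b * β) * (1 - 2 * α)| =
      |a| * ((α ^ 2 + β ^ 2) * (α ^ 2 + β ^ 2 - 2 * α)) := by
    rw [hx, abs_mul]
    congr 1
    apply abs_of_nonneg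
    apply mul_nonneg
    · positivity
    · nlinarith [sq_nonneg (α - 1)]
  rw [abs_mul] at habs
  have hb1 : |a * α - b * β| ≤ |a| * |α| + K * |β| := by
    calc |a * α - b * β| ≤ |a * α| + |b * β| := abs_sub _ _
      _ = |a| * |α| + |b| * |β| := by rw [abs_mul, abs_mul]
      _ ≤ |a| * |α| + K * |β| := by
        have := mul_le_mul_of_nonneg_right hle (abs_nonneg β)
        linarith
  have hb2 : |1 - 2 * α| ≤ 1 + 2 * |α| := by
    calc |1 - 2 * α| ≤ |1| + |2 * α| := abs_sub _ _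
      _ = 1 + 2 * |α| := by rw [abs_mul]; norm_num
  have ha1 : 1 ≤ |a| := Int.one_le_abs ha
  set p := |α| with hp
  set r := |β| with hr
  have hp0 : 0 ≤ p := abs_nonneg α
  have hr0 : 0 ≤ r := abs_nonneg β
  have hp2 : α ^ 2 = p ^ 2 := (sq_abs α).symm
  have hr2 : β ^ 2 = r ^ 2 := (sq_abs β).symm
  have hr1 : 2 ≤ r := by nlinarith
  have hup : |a * α - b * β| * |1 - 2 * α| ≤ (|a| * p + K * r) * (1 + 2 * p) := by
    apply mul_le_mul hb1 hb2 (abs_nonneg _)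
    positivity
  have hup2 : (|a| * p + K * r) * (1 + 2 * p) ≤ (|a| + K) * (4 * (p ^ 2 + r ^ 2)) := by
    have h1 : |a| * p + K * r ≤ (|a| + K) * (p + r) := by nlinarith [abs_nonneg a, mul_nonneg hK hp0, mul_nonneg (abs_nonneg a) hr0]
    have h2 : 1 + 2 * p ≤ 2 * (p + r) := by linarith
    calc (|a| * p + K * r) * (1 + 2 * p) ≤ ((|a| + K) * (p + r)) * (2 * (p + r)) := by
          apply mul_le_mul h1 h2 (by positivity) (by positivity)
      _ = (|a| + K) * (2 * (p + r) ^ 2) := by ring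
      _ ≤ (|a| + K) * (4 * (p ^ 2 + r ^ 2)) := by
          apply mul_le_mul_of_nonneg_left _ (by positivity)
          nlinarith [sq_nonneg (p - r)]
  have hlow : (p ^ 2 + r ^ 2) * (r ^ 2 - 1) ≤ |a| * ((α ^ 2 + β ^ 2) * (α ^ 2 + β ^ 2 - 2 * α)) := by
    have h1 : r ^ 2 - 1 ≤ α ^ 2 + β ^ 2 - 2 * α := by nlinarith [sq_nonneg (α - 1)]
    have h2 : (p ^ 2 + r ^ 2) * (r ^ 2 - 1) ≤ (α ^ 2 + β ^ 2) * (α ^ 2 + β ^ 2 - 2 * α) := by
      rw [hp2, hr2] at *
      exact mul_le_mul_of_nonneg_left h1 (by positivity)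
    have h3 : 0 ≤ (α ^ 2 + β ^ 2) * (α ^ 2 + β ^ 2 - 2 * α) := by
      apply mul_nonneg
      · positivity
      · nlinarith
    nlinarith
  have hfin : (p ^ 2 + r ^ 2) * (r ^ 2 - 1) ≤ (p ^ 2 + r ^ 2) * (4 * (|a| + K)) := by
    calc (p ^ 2 + r ^ 2) * (r ^ 2 - 1) ≤ |a| * ((α ^ 2 + β ^ 2) * (α ^ 2 + β ^ 2 - 2 * α)) := hlow
      _ = |a * α - b * β| * |1 - 2 * α| := habs.symm
      _ ≤ (|a| * p + K * r) * (1 + 2 * p) := hup
      _ ≤ (|a| + K) * (4 * (p ^ 2 + r ^ 2)) := hup2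
      _ = (p ^ 2 + r ^ 2) * (4 * (|a| + K)) := by ring
  have hpos : 0 < p ^ 2 + r ^ 2 := by positivity
  have h9 := le_of_mul_le_mul_left hfin hpos
  rw [hr2] at hβK
  nlinarith

/-- The discriminant `(A - B - 1)² + 4 A B` is not a square for `A, B > 0`. -/
theorem disc_not_square (A B : ℤ) (hA : 0 < A) (hB : 0 < B) :
    ¬ IsSquare ((A - B - 1) ^ 2 + 4 * A * B) := by
  rintro ⟨r, hr⟩
  have h1 : (A - B - 1) ^ 2 + 4 * A * B = |r| * |r| := by rw [hr, abs_mul_abs_self]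
  have h0 : 0 ≤ |r| := abs_nonneg r
  set s := |r|
  have h2 : s < A + B + 1 := by nlinarith
  have h3 : A + B - 1 < s := by
    by_contra hle
    push Not at hle
    have : s * s ≤ (A + B - 1) * (A + B - 1) := mul_le_mul hle hle h0 (by linarith)
    nlinarith
  have h4 : s = A + B := by omega
  rw [h4] at h1
  have h5 : 2 * (A - B) = 1 := by nlinarith
  omega

/-- Solutions of `A u² - t u v - B v² = 1`, `t = A - B - 1`, congruent to `(1, 1)` modulo `m` and with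
`v` larger than `m`. -/
theorem exists_uv (A B m : ℤ) (hA : 0 < A) (hB : 0 < B) (hm : 0 < m) :
    ∃ u v : ℤ, A * u ^ 2 - (A - B - 1) * u * v - B * v ^ 2 = 1 ∧ m ∣ u - 1 ∧ m ∣ v - 1 ∧ m < v := by
  set t := A - B - 1 with ht
  set Δ := t ^ 2 + 4 * A * B with hΔ
  have hΔ0 : 0 < Δ := by rw [hΔ]; positivity
  have hns : ¬ IsSquare (Δ * m ^ 2) := by
    intro hsq
    apply disc_not_square A B hA hB
    have h1 : IsSquare ((Δ * m ^ 2 : ℤ) : ℚ) := by
      obtain ⟨r, hr⟩ := hsq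
      exact ⟨r, by exact_mod_cast hr⟩
    obtain ⟨r, hr⟩ := h1
    have h2 : IsSquare ((Δ : ℤ) : ℚ) := by
      refine ⟨r / m, ?_⟩
      have hm' : (m : ℚ) ≠ 0 := by exact_mod_cast hm.ne'
      push_cast at hr
      field_simp
      linarith
    exact Rat.isSquare_intCast_iff.mp h2
  obtain ⟨a, ha1, ha2⟩ := Pell.Solution₁.exists_pos_of_not_isSquare (by positivity : 0 < Δ * m ^ 2) hns
  have hp := a.prop
  set x := a.x
  set y := a.y
  set X := 1 + 2 * (Δ * m ^ 2) * y ^ 2 with hX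
  set Y := 2 * m * x * y with hY
  have hXY : X ^ 2 - Δ * Y ^ 2 = 1 := by
    rw [hX, hY]
    linear_combination (-4 * Δ * m ^ 2 * y ^ 2) * hp
  refine ⟨X + t * Y + 2 * B * Y, X - t * Y + 2 * A * Y, ?_, ?_, ?_, ?_⟩
  · have e1 : A - t - B = 1 := by rw [ht]; ring
    have e2 : A * (X + t * Y + 2 * B * Y) ^ 2 - t * (X + t * Y + 2 * B * Y) * (X - t * Y + 2 * A * Y) -
        B * (X - t * Y + 2 * A * Y) ^ 2 = (X ^ 2 - Δ * Y ^ 2) * (A - t - B) := by
      rw [hΔ]; ring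
    rw [e2, hXY, e1]; norm_num
  · refine ⟨2 * Δ * m * y ^ 2 + (t + 2 * B) * (2 * x * y), ?_⟩
    rw [hX, hY]; ring
  · refine ⟨2 * Δ * m * y ^ 2 + (2 * A - t) * (2 * x * y), ?_⟩
    rw [hX, hY]; ring
  · have e3 : 2 * A - t = A + B + 1 := by rw [ht]; ring
    have hx0 : 0 < x := by linarith
    have h5 : 1 ≤ m * x * y := by
      have : 0 < m * x * y := by positivity
      omega
    have h6 : X - t * Y + 2 * A * Y = X + (A + B + 1) * Y := by
      linear_combination Y * e3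
    rw [h6]
    have h7 : m ≤ m ^ 2 := by nlinarith
    have h8 : 1 ≤ y ^ 2 := by nlinarith
    have h9 : 1 ≤ Δ := by omega
    have h10 : m ^ 2 ≤ Δ * m ^ 2 := by nlinarith [sq_nonneg m]
    have h11 : Δ * m ^ 2 ≤ Δ * m ^ 2 * y ^ 2 := by nlinarith [mul_nonneg hΔ0.le (sq_nonneg m)]
    have h12 : 0 ≤ (A + B + 1) * Y := by
      apply mul_nonneg (by linarith)
      rw [hY]; positivity
    rw [hX]
    nlinarith

/-- **Lifting.** One solution `(D₀, β₀, b₀)` gives infinitely many. -/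
theorem lifting (a D₀ β₀ W b₀ : ℤ) (ha : a ≠ 0) (hD : Odd D₀) (hβ : β₀ ≠ 0) (hW : W ≠ 0)
    (haW : a * W = 16 * β₀ * D₀) (hb : W * b₀ = -NN D₀ β₀) (hab : IsCoprime a b₀) :
    {b : ℤ | Prim a b}.Infinite := by
  have hD0 : D₀ ≠ 0 := by rintro rfl; simp at hD
  have hA : 0 < D₀ ^ 2 := by positivity
  have hB : 0 < 4 * β₀ ^ 2 := by positivity
  have main : ∀ K : ℕ, ∃ b : ℤ, Prim a b ∧ (K : ℤ) < |b| := by
    intro K
    set L : ℤ := 8 * (|a| + K) + 4 with hL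
    have hL0 : 0 < L := by positivity
    have hWa : 0 < |W * a| := abs_pos.mpr (mul_ne_zero hW ha)
    obtain ⟨u, v, huv, hu, hv, hvm⟩ := exists_uv (D₀ ^ 2) (4 * β₀ ^ 2) (2 * |W * a| * L) hA hB
      (by positivity)
    have hdvd : W * a ∣ 2 * |W * a| * L := by
      have : W * a ∣ |W * a| := (dvd_abs _ _).mpr dvd_rfl
      exact (this.mul_left 2).mul_right L
    have hu1 : W * a ∣ u - 1 := hdvd.trans hu
    have hv1 : W * a ∣ v - 1 := hdvd.trans hv
    have hu2 : (2 : ℤ) ∣ u - 1 := (Dvd.intro _ (by ring : 2 * (|W * a| * L) = _)).trans hu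
    have huo : Odd u := by
      obtain ⟨c, hc⟩ := hu2
      exact ⟨c, by omega⟩
    have hvL : L < v := by nlinarith
    -- divisibility of N
    have hW1 : W * a ∣ NN (D₀ * u) (β₀ * v) - NN D₀ β₀ := by
      have hmu : u ≡ 1 [ZMOD W * a] := (Int.modEq_iff_dvd.mpr (by simpa using hu1)).symm
      have hmv : v ≡ 1 [ZMOD W * a] := (Int.modEq_iff_dvd.mpr (by simpa using hv1)).symm
      have h1 : D₀ * u ≡ D₀ [ZMOD W * a] := by simpa using hmu.mul_left D₀
      have h2 : β₀ * v ≡ β₀ [ZMOD W * a] := by simpa using hmv.mul_left β₀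
      have h3 : NN (D₀ * u) (β₀ * v) ≡ NN D₀ β₀ [ZMOD W * a] := by
        unfold NN
        exact ((((h1.pow 2).add_right 1).add ((h2.pow 2).mul_left 4)).pow 2).sub
          (((((h2.pow 2).mul_left 4).add_left 1)).mul_left 4)
      exact Int.modEq_iff_dvd.mp h3.symm
    obtain ⟨z, hz⟩ := hW1
    have hWN : W ∣ NN (D₀ * u) (β₀ * v) := by
      refine ⟨a * z - b₀, ?_⟩
      linear_combination hz + hb
    have hcuv : IsCoprime u v := by
      refine ⟨D₀ ^ 2 * u - (D₀ ^ 2 - 4 * β₀ ^ 2 - 1) * v, -(4 * β₀ ^ 2) * v, ?_⟩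
      linear_combination huv
    have hcuW : IsCoprime u (W * a) := by
      obtain ⟨c, hc⟩ := hu1
      exact ⟨1, -c, by linear_combination hc⟩
    have hcvW : IsCoprime v (W * a) := by
      obtain ⟨c, hc⟩ := hv1
      exact ⟨1, -c, by linear_combination hc⟩
    have huN : u ∣ NN (D₀ * u) (β₀ * v) := by
      have hE : 1 + 4 * (β₀ * v) ^ 2 = u * (D₀ ^ 2 * u - (D₀ ^ 2 - 4 * β₀ ^ 2 - 1) * v) := by
        linear_combination -huv
      have : NN (D₀ * u) (β₀ * v) = (D₀ ^ 2 * u ^ 2 + (1 + 4 * (β₀ * v) ^ 2)) ^ 2 -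
          4 * (1 + 4 * (β₀ * v) ^ 2) := by unfold NN; ring
      rw [this, hE]
      exact ⟨u * (D₀ ^ 2 * u + (D₀ ^ 2 * u - (D₀ ^ 2 - 4 * β₀ ^ 2 - 1) * v)) ^ 2 -
        4 * (D₀ ^ 2 * u - (D₀ ^ 2 - 4 * β₀ ^ 2 - 1) * v), by ring⟩
    have hvN : v ∣ NN (D₀ * u) (β₀ * v) := by
      have hE : (D₀ * u) ^ 2 = 1 + v * ((D₀ ^ 2 - 4 * β₀ ^ 2 - 1) * u + 4 * β₀ ^ 2 * v) := by
        linear_combination huv
      unfold NN
      rw [hE]
      exact ⟨2 * 2 * ((D₀ ^ 2 - 4 * β₀ ^ 2 - 1) * u + 4 * β₀ ^ 2 * v + 4 * β₀ ^ 2 * v) +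
        v * ((D₀ ^ 2 - 4 * β₀ ^ 2 - 1) * u + 4 * β₀ ^ 2 * v + 4 * β₀ ^ 2 * v) ^ 2 -
        16 * β₀ ^ 2 * v, by ring⟩
    have huvN : u * v ∣ NN (D₀ * u) (β₀ * v) := hcuv.mul_dvd huN hvN
    have hcW : IsCoprime W (u * v) :=
      ((hcuW.mul_left hcvW).symm).of_mul_left_left
    obtain ⟨b, hb'⟩ := hcW.mul_dvd hWN huvN
    -- b
    have hβ2 : 1 ≤ β₀ ^ 2 := by
      have : 0 < β₀ ^ 2 := by positivity
      omega
    have habs : 0 ≤ |a| := abs_nonneg a
    have hK0 : (0 : ℤ) ≤ K := Int.natCast_nonneg K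
    have hβv : v ≤ (β₀ * v) ^ 2 := by
      rw [mul_pow]; nlinarith
    have h4 : 4 ≤ (β₀ * v) ^ 2 := by linarith
    have hrel : 16 * (-b) * (β₀ * v) * (D₀ * u) = -a * NN (D₀ * u) (β₀ * v) := by
      rw [hb']
      linear_combination (u * v * b) * haW
    refine ⟨-b, prim_of a (-b) (D₀ * u) (β₀ * v) ha (hD.mul huo) h4 ?_ hrel,
      bound_of a (-b) (D₀ * u) (β₀ * v) K ha (hD.mul huo) h4 hK0 (by linarith) hrel⟩
    have h1 : W * (u * v * (-b)) = W * (b₀ - a * z) := by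
      linear_combination hb' - hz - hb
    have h2 := mul_left_cancel₀ hW h1
    have h3 : IsCoprime a (u * v * (-b)) := by
      rw [h2]
      have := hab.add_mul_left_right (-z)
      have e : b₀ + a * -z = b₀ - a * z := by ring
      rwa [e] at this
    exact h3.of_mul_right_right
  intro hfin
  obtain ⟨M, hM⟩ := (hfin.image (fun b : ℤ => |b|)).bddAbove
  obtain ⟨b, hb1, hb2⟩ := main M.toNat
  have h1 : |b| ≤ M := hM ⟨b, hb1, rfl⟩
  have h2 : M ≤ M.toNat := Int.self_le_toNat M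
  linarith

/-- Odd `a`. -/
theorem odd_case (a : ℤ) (ha : Odd a) : {b : ℤ | Prim a b}.Infinite := by
  obtain ⟨n, hn⟩ : (8 : ℤ) ∣ (55 * a) ^ 2 - 1 := by
    exact Int.eight_dvd_sq_sub_one_of_odd (Odd.mul (by decide) ha)
  have ha0 : a ≠ 0 := by rintro rfl; simp at ha
  have hn0 : n ≠ 0 := by
    rintro rfl
    have h1 : 1 ≤ a ^ 2 := by
      have : 0 < a ^ 2 := by positivity
      omega
    nlinarith
  -- (D₀, 2 β₀) = (55 a, (D₀² - 1) / 2) with D₀² - 1 = 8 n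
  -- b₀ = - (8 n³ + 8 n² + 2 n + 1) / 55
  obtain ⟨b₀, hb₀⟩ : (55 : ℤ) ∣ -(8 * n ^ 3 + 8 * n ^ 2 + 2 * n + 1) := by
    have h1 : (55 : ℤ) ∣ 64 * (-(8 * n ^ 3 + 8 * n ^ 2 + 2 * n + 1)) := by
      refine ⟨-(1 + 55 * a ^ 2 * (64 * n ^ 2 + 56 * n + 9)), ?_⟩
      linear_combination (64 * n ^ 2 + 56 * n + 9) * hn
    exact (by norm_num : IsCoprime (55 : ℤ) 64).dvd_of_dvd_mul_left h1
  apply lifting a (55 * a) (2 * n) (220 * (8 * n)) b₀ ha0 (Odd.mul (by decide) ha) (by positivity)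
    (by positivity)
  · ring
  · unfold NN
    have e : (55 * a) ^ 2 = 8 * n + 1 := by linear_combination hn
    rw [e]
    linear_combination (-(32 : ℤ) * n) * hb₀
  · have h1 : IsCoprime a (64 * b₀) := by
      refine ⟨-(55 * a * (64 * n ^ 2 + 56 * n + 9)), -1, ?_⟩
      have : (55 : ℤ) * (-(55 * a * (64 * n ^ 2 + 56 * n + 9)) * a + -1 * (64 * b₀)) = 55 * 1 := by
        linear_combination 64 * hb₀ - (64 * n ^ 2 + 56 * n + 9) * hn
      exact mul_left_cancel₀ (by norm_num) this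
    exact h1.of_mul_right_right

/-- `a = 2 h a'` with `h` a power of two, `h ≥ 2`. -/
theorem even_case (j : ℕ) (c : ℤ) (hc : Odd c) : {b : ℤ | Prim (2 * 2 ^ (j + 1) * c) b}.Infinite := by
  set h : ℤ := 2 ^ (j + 1) with hh
  have hh2 : 2 ≤ h := by
    rw [hh, pow_succ]
    have : (1 : ℤ) ≤ 2 ^ j := one_le_pow₀ (by norm_num)
    linarith
  have hhe : Even h := ⟨2 ^ j, by rw [hh, pow_succ]; ring⟩
  have hc0 : c ≠ 0 := by rintro rfl; simp at hc
  set r : ℤ := (h ^ 2 + 1) * (h ^ 2 - 3) with hr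
  have hh4 : 4 ≤ h ^ 2 := by nlinarith
  have hr5 : 5 ≤ r := by rw [hr]; nlinarith
  have hro : Odd r := by
    have h1 : Even (h ^ 2) := hhe.pow_of_ne_zero (by norm_num)
    exact (h1.add_one).mul (h1.sub_odd (by decide))
  obtain ⟨n, hn⟩ : (8 : ℤ) ∣ (c * r) ^ 2 - 1 := Int.eight_dvd_sq_sub_one_of_odd (hc.mul hro)
  have hn0 : n ≠ 0 := by
    rintro rfl
    have h1 : 1 ≤ c ^ 2 := by
      have : 0 < c ^ 2 := by positivity
      omega
    have h2 : 25 ≤ r ^ 2 := by nlinarith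
    have h3 : (c * r) ^ 2 = c ^ 2 * r ^ 2 := by ring
    rw [h3] at hn
    nlinarith
  set Z : ℤ := h ^ 4 * (64 * n ^ 2 - 8 * n + 1) + 2 * h ^ 2 * (8 * n - 1) + 1 with hZ
  have h4P : 4 * (128 * h ^ 4 * n ^ 3 + 32 * h ^ 2 * n ^ 2 + 2 * n + 1) = r * (-1 + c ^ 2 * r * Z) := by
    have e1 : 4 * (128 * h ^ 4 * n ^ 3 + 32 * h ^ 2 * n ^ 2 + 2 * n + 1) = -r + (8 * n + 1) * Z := by
      rw [hZ, hr]; ring
    rw [e1]
    linear_combination -Z * hn
  have hcop4 : IsCoprime r 4 := by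
    obtain ⟨e, he⟩ := hro
    have : IsCoprime r 2 := ⟨1, -e, by linear_combination he⟩
    exact (by norm_num : (4 : ℤ) = 2 * 2) ▸ this.mul_right this
  obtain ⟨b₀, hb₀⟩ : r ∣ -(128 * h ^ 4 * n ^ 3 + 32 * h ^ 2 * n ^ 2 + 2 * n + 1) := by
    apply hcop4.dvd_of_dvd_mul_left
    refine ⟨-(-1 + c ^ 2 * r * Z), ?_⟩
    linear_combination -h4P
  have h4b : 4 * b₀ = 1 - c ^ 2 * r * Z := by
    have : r * (4 * b₀) = r * (1 - c ^ 2 * r * Z) := by linear_combination -4 * hb₀ - h4P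
    exact mul_left_cancel₀ (by omega) this
  have hcb : IsCoprime c b₀ := by
    have h1 : IsCoprime c (4 * b₀) := ⟨c * r * Z, 1, by linear_combination h4b⟩
    exact h1.of_mul_right_right
  have hbo : Odd b₀ := by
    have h1 : Odd (r * b₀) := by
      rw [← hb₀]
      refine Odd.neg ?_
      exact ⟨64 * h ^ 4 * n ^ 3 + 16 * h ^ 2 * n ^ 2 + n, by ring⟩
    exact (Int.odd_mul.mp h1).2
  have h2b : IsCoprime (2 : ℤ) b₀ := by
    obtain ⟨e, he⟩ := hbo
    exact ⟨-e, 1, by linear_combination he⟩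
  apply lifting (2 * h * c) (c * r) (4 * h * n) (32 * n * r) b₀ (by positivity) (hc.mul hro)
    (by positivity) (by positivity)
  · ring
  · unfold NN
    have e : (c * r) ^ 2 = 8 * n + 1 := by linear_combination hn
    rw [e]
    linear_combination (-(32 : ℤ) * n) * hb₀
  · exact (h2b.mul_left (hh ▸ h2b.pow_left)).mul_left hcb

/-- `a = 2 c` with `c` odd. -/
theorem two_case (c : ℤ) (hc : Odd c) : {b : ℤ | Prim (2 * c) b}.Infinite := by
  have hc0 : c ≠ 0 := by rintro rfl; simp at hc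
  obtain ⟨n, hn⟩ : (8 : ℤ) ∣ c ^ 2 - 1 := Int.eight_dvd_sq_sub_one_of_odd hc
  by_cases hn0 : n = 0
  · -- c = 1 or c = -1
    rw [hn0] at hn
    have h1 : c ^ 2 = 1 := by linarith
    apply lifting (2 * c) (5 * c) 4 160 (-49) (by positivity) (Odd.mul (by decide) hc) (by norm_num)
      (by norm_num)
    · ring
    · unfold NN
      have e : (5 * c) ^ 2 = 25 := by linear_combination 25 * h1
      rw [e]; norm_num
    · refine ⟨-24 * c * 1, -1, ?_⟩
      linear_combination -48 * h1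
  · apply lifting (2 * c) c (4 * n) (32 * n) (-(128 * n ^ 3 + 32 * n ^ 2 + 2 * n + 1)) (by positivity)
      hc (by positivity) (by positivity)
    · ring
    · unfold NN
      have e : c ^ 2 = 8 * n + 1 := by linear_combination hn
      rw [e]; ring
    · have h1 : IsCoprime c (4 * (128 * n ^ 3 + 32 * n ^ 2 + 2 * n + 1)) := by
        have h2 : IsCoprime c 4 := by
          obtain ⟨e, he⟩ := hc
          have : IsCoprime c 2 := ⟨1, -e, by linear_combination he⟩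
          exact (by norm_num : (4 : ℤ) = 2 * 2) ▸ this.mul_right this
        have h3 : IsCoprime c (4 + c * (c * (64 * n ^ 2 + 8 * n))) := h2.add_mul_left_right _
        have e : 4 * (128 * n ^ 3 + 32 * n ^ 2 + 2 * n + 1) = 4 + c * (c * (64 * n ^ 2 + 8 * n)) := by
          linear_combination (-(64 * n ^ 2 + 8 * n)) * hn
        rw [e]; exact h3
      have h2 : IsCoprime (2 : ℤ) (128 * n ^ 3 + 32 * n ^ 2 + 2 * n + 1) :=
        ⟨-(64 * n ^ 3 + 16 * n ^ 2 + n), 1, by ring⟩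
      exact (h2.mul_left h1.of_mul_right_right).neg_right

/-- **Theorem.** For every nonzero integer `a` there are infinitely many integers `b` for which there
are integers `x`, `y` with
`x (a² + b²) (a² + b² - 2 a x - 2 b y) = a (x² + y²) (x² + y² - 2 a x - 2 b y)`,
`a x (a - x) ≠ 0` and `gcd (a, b, x, y) = 1`. -/
theorem result : ∀ a : ℤ, a ≠ 0 →
    {b : ℤ | ∃ x y : ℤ, x * (a ^ 2 + b ^ 2) * (a ^ 2 + b ^ 2 - 2 * a * x - 2 * b * y) =
        a * (x ^ 2 + y ^ 2) * (x ^ 2 + y ^ 2 - 2 * a * x - 2 * b * y) ∧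
      a * x * (a - x) ≠ 0 ∧ Int.gcd (Int.gcd a b) (Int.gcd x y) = 1}.Infinite := by
  intro a ha
  change {b : ℤ | Prim a b}.Infinite
  obtain ⟨k, c, hc, rfl⟩ : ∃ (k : ℕ) (c : ℤ), Odd c ∧ a = 2 ^ k * c := by
    obtain ⟨k, m, hm, h⟩ := Nat.exists_eq_two_pow_mul_odd (Int.natAbs_ne_zero.mpr ha)
    have hm' : Odd (m : ℤ) := by exact_mod_cast hm
    rcases Int.natAbs_eq a with h1 | h1
    · refine ⟨k, m, hm', ?_⟩
      rw [h1, h]; push_cast; ring
    · refine ⟨k, -m, hm'.neg, ?_⟩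
      rw [h1, h]; push_cast; ring
  rcases k with _ | k
  · simpa using odd_case c hc
  rcases k with _ | j
  · simpa using two_case c hc
  · have := even_case j c hc
    have e : (2 : ℤ) ^ (j + 1 + 1) * c = 2 * 2 ^ (j + 1) * c := by ring
    rw [e]; exact this

end Pool.Agent.Results.MP_bbf25a_nt.EveryVerticalLine
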